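import Pool.Agent.X216.EPlastic2

/-!
# No dense analytic subgroup of the real line is plastic

Every dense analytic subgroup `H` of `ℝ` has a non-expansive bijection onto itself which is
not an isometry.  So the separable normed space `ℝ` has no dense analytic plastic subgroup,
and both questions of the problem have a negative answer.
-/

open MeasureTheory Pool.Agent.X216.EPlastic

namespace Pool.Agent.Results.MP_4fc6a2_gt.AnalyticSubgroupsNotPlastic

/-- A metric space is plastic if every non-expansive bijection of it is an isometry. -/
def Plastic (X : Type) [MetricSpace X] : Prop :=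
  ∀ f : X → X, Function.Bijective f → (∀ x y, dist (f x) (f y) ≤ dist x y) → Isometry f

/-- **Main theorem.** (Q2) Every dense analytic subgroup of the line has a non-expansive
bijection onto itself which is not an isometry.  (Q1) It is not true that every separable
real normed space contains a dense analytic plastic subgroup. -/
theorem result :
    (∀ H : AddSubgroup ℝ, Dense (H : Set ℝ) → AnalyticSet (H : Set ℝ) →
      ∃ f : H → H, Function.Bijective f ∧ (∀ x y, dist (f x) (f y) ≤ dist x y) ∧ ¬ Isometry f) ∧
    ¬ ∀ (E : Type) [NormedAddCommGroup E] [NormedSpace ℝ E] [TopologicalSpace.SeparableSpace E],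
      ∃ H : AddSubgroup E, Dense (H : Set E) ∧ AnalyticSet (H : Set E) ∧ Plastic H := by
  have h1 : ∀ H : AddSubgroup ℝ, Dense (H : Set ℝ) → AnalyticSet (H : Set ℝ) →
      ∃ f : H → H, Function.Bijective f ∧ (∀ x y, dist (f x) (f y) ≤ dist x y) ∧
        ¬ Isometry f := by
    intro H hd hH
    have h := not_plastic_analytic H hd hH
    unfold Pool.Agent.X216.EPlastic.Plastic at h
    push Not at h
    exact h
  refine ⟨h1, fun hall => ?_⟩
  obtain ⟨H, hd, hH, hP⟩ := hall ℝ
  obtain ⟨f, hb, hf, hi⟩ := h1 H hd hH
  exact hi (hP f hb hf)

end Pool.Agent.Results.MP_4fc6a2_gt.AnalyticSubgroupsNotPlastic
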